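import Pool.Agent.H670Z.Prime

set_option autoImplicit false

namespace Pool.Agent.Results.MP_3ae405_al.BPrimeMinusOne

/-- For every `k ≥ 2` with `k + 1` prime there is an infinite countable group of transitivity
degree exactly `k`. -/
theorem result :
    ∀ k : ℕ, 2 ≤ k → (k + 1).Prime →
      ∃ (G : Type) (_ : Group G), Infinite G ∧ Countable G ∧
        (∃ (X : Type) (_ : MulAction G X),
            Nonempty (Fin k ↪ X) ∧
            (∀ g : G, (∀ x : X, g • x = x) → g = 1) ∧
            ∀ x y : Fin k ↪ X, ∃ g : G, ∀ i, g • x i = y i) ∧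
        ∀ (X : Type) (_ : MulAction G X),
            Nonempty (Fin (k + 1) ↪ X) →
            (∀ g : G, (∀ x : X, g • x = x) → g = 1) →
            ¬ ∀ x y : Fin (k + 1) ↪ X, ∃ g : G, ∀ i, g • x i = y i := by
  intro k hk hp
  obtain ⟨G, _, h1, h2, h3, h4⟩ := Pool.Agent.H670Z.Prime.main (k + 1) hp (by omega)
  exact ⟨G, inferInstance, h1, h2, h3, fun X _ hX _ => h4 X _ hX⟩

end Pool.Agent.Results.MP_3ae405_al.BPrimeMinusOne
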